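import Mathlib
import Pool.Agent.Y34.HB.Stm

/-!
# Project HB (helper34): small rotation parts of crystallographic groups are trivial
-/

set_option autoImplicit false

universe v

namespace Pool.Agent.Y220.HB

open Metric Set Filter Topology Pool.Agent.Y34.HB

theorem t : S_ROT.{v} := by
  classical
  intro k Γ _ e hfin hmini g hg
  obtain ⟨L, hL⟩ : ∃ L : Γ → (E k ≃ₗᵢ[ℝ] E k), ∀ h, L h = (e h).linearIsometryEquiv :=
    ⟨_, fun _ => rfl⟩
  have haff : ∀ (h : Γ) (x : E k), e h x = L h x + e h 0 := by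
    intro h x
    have h1 := (e h).map_vadd 0 x
    rw [vadd_eq_add, vadd_eq_add, add_zero, ← hL] at h1
    exact h1
  simp_rw [← hL] at hg hmini ⊢
  obtain ⟨A, hA⟩ : ∃ A : E k ≃ₗᵢ[ℝ] E k, A = L g := ⟨_, rfl⟩
  rw [← hA] at hg ⊢
  by_contra hcon
  push Not at hcon
  obtain ⟨z0, hz0⟩ := hcon
  -- the fixed space and its complement
  let f1 : E k →ₗ[ℝ] E k := A.toLinearEquiv.toLinearMap - LinearMap.id
  have hf1 : ∀ x, f1 x = A x - x := fun x => rfl
  let W : Submodule ℝ (E k) := LinearMap.ker f1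
  have hW : ∀ x, x ∈ W ↔ A x = x := by
    intro x
    rw [LinearMap.mem_ker, hf1, sub_eq_zero]
  obtain ⟨V, hV⟩ : ∃ V : Submodule ℝ (E k), V = Wᗮ := ⟨_, rfl⟩
  have hVr : ∀ x, A x - x ∈ V := by
    intro x
    rw [hV, Submodule.mem_orthogonal]
    intro u hu
    have h1 : A u = u := (hW u).1 hu
    rw [inner_sub_right]
    conv_lhs => rw [← h1]
    rw [A.inner_map_map, h1, sub_self]
  have hVW : ∀ x ∈ V, A x = x → x = 0 := by
    intro x hx hAx
    have h1 : x ∈ W := (hW x).2 hAx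
    rw [hV, Submodule.mem_orthogonal] at hx
    exact inner_self_eq_zero.1 (hx x h1)
  obtain ⟨c, hc0, hc1, hc⟩ : ∃ c : ℝ, 0 < c ∧ c ≤ 1 ∧ ∀ v ∈ V, c * ‖v‖ ≤ ‖A v - v‖ := by
    have hker : LinearMap.ker (f1.comp V.subtype) = ⊥ := by
      rw [LinearMap.ker_eq_bot']
      intro x hx
      have h1 : A x - x = 0 := hx
      exact Subtype.ext (hVW x x.2 (sub_eq_zero.1 h1))
    obtain ⟨K, hK, hKa⟩ := LinearMap.exists_antilipschitzWith (f1.comp V.subtype) hker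
    have hK0 : (0 : ℝ) < K := by exact_mod_cast hK
    refine ⟨min 1 (1 / K), lt_min one_pos (by positivity), min_le_left _ _, fun v hv => ?_⟩
    have h1 := hKa.le_mul_dist ⟨v, hv⟩ 0
    rw [map_zero, dist_zero_right, dist_zero_right] at h1
    have h2 : ‖v‖ ≤ K * ‖A v - v‖ := h1
    calc min 1 (1 / (K : ℝ)) * ‖v‖ ≤ 1 / K * ‖v‖ :=
          mul_le_mul_of_nonneg_right (min_le_right _ _) (norm_nonneg _)
      _ ≤ 1 / K * (K * ‖A v - v‖) := mul_le_mul_of_nonneg_left h2 (by positivity)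
      _ = ‖A v - v‖ := by field_simp
  -- the minimal translation
  obtain ⟨η, hη0, hη⟩ : ∃ η : ℝ, 0 < η ∧ ∀ h : Γ, e h 0 ≠ 0 → η ≤ ‖e h 0‖ := by
    let S : Finset Γ := (hfin 1).toFinset.filter fun h => e h 0 ≠ 0
    rcases S.eq_empty_or_nonempty with hS | hS
    · refine ⟨1, one_pos, fun h h0 => ?_⟩
      by_contra hcon
      rw [not_le] at hcon
      have h1 : h ∈ S := by
        rw [Finset.mem_filter, Set.Finite.mem_toFinset]
        exact ⟨hcon.le, h0⟩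
      rw [hS] at h1
      exact absurd h1 (Finset.notMem_empty _)
    · obtain ⟨h1, hh1, hmin⟩ := S.exists_min_image (fun h => ‖e h 0‖) hS
      have h2 := (Finset.mem_filter.1 hh1).2
      refine ⟨min 1 ‖e h1 0‖, lt_min one_pos (norm_pos_iff.2 h2), fun h h0 => ?_⟩
      rcases le_or_gt ‖e h 0‖ 1 with h3 | h3
      · refine (min_le_right _ _).trans (hmin h ?_)
        rw [Finset.mem_filter, Set.Finite.mem_toFinset]
        exact ⟨h3, h0⟩
      · exact (min_le_left _ _).trans h3.le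
  obtain ⟨a0, ha0⟩ : ∃ a0 : E k, a0 = e g 0 := ⟨_, rfl⟩
  obtain ⟨δ, hδ0, hδ⟩ : ∃ δ : ℝ, 0 < δ ∧ δ * (1 / 2 + 2 * ‖a0‖ / η) ≤ c / 8 := by
    refine ⟨c / 8 / (1 / 2 + 2 * ‖a0‖ / η), by positivity, ?_⟩
    rw [div_mul_cancel₀]
    have : 0 < 1 / 2 + 2 * ‖a0‖ / η := by positivity
    exact this.ne'
  -- the projection
  obtain ⟨P, hP⟩ : ∃ P : E k → E k, P = fun x => V.starProjection x := ⟨_, rfl⟩
  have hP1 : ∀ x, P x ∈ V := fun x => by rw [hP]; exact V.starProjection_apply_mem x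
  have hP2 : ∀ x ∈ V, P x = x := fun x hx => by
    rw [hP]; exact Submodule.starProjection_eq_self_iff.2 hx
  have hP3 : ∀ x y, P (x + y) = P x + P y := fun x y => by rw [hP]; exact map_add _ _ _
  have hP4 : ∀ x, ‖P x‖ ≤ ‖x‖ := fun x => by rw [hP]; exact V.norm_starProjection_apply_le x
  have hP5 : ∀ x, A (x - P x) = x - P x := by
    intro x
    rw [← hW, ← Submodule.orthogonal_orthogonal W, ← hV, hP]
    exact V.sub_starProjection_mem_orthogonal x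
  have hP6 : ∀ x, A x - x = A (P x) - P x := by
    intro x
    have h1 := hP5 x
    rw [map_sub] at h1
    have h2 : A x = A (P x) + (x - P x) := by rw [← h1]; abel
    rw [h2]
    abel
  -- the step
  have step : ∀ h : Γ, (∀ z, ‖L h z - z‖ ≤ δ * ‖z‖) → e h 0 ≠ 0 → ‖e h 0‖ ≤ 2 * ‖P (e h 0)‖ →
      ∃ h' : Γ, (∀ z, ‖L h' z - z‖ ≤ δ * ‖z‖) ∧ e h' 0 ≠ 0 ∧ ‖e h' 0‖ ≤ 2 * ‖P (e h' 0)‖ ∧
        ‖e h' 0‖ ≤ ‖e h 0‖ / 2 := by
    intro h hrot hne hproj
    obtain ⟨H, hH⟩ : ∃ H : E k ≃ₗᵢ[ℝ] E k, H = L h := ⟨_, rfl⟩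
    obtain ⟨b, hb⟩ : ∃ b : E k, b = e h 0 := ⟨_, rfl⟩
    rw [← hH] at hrot
    rw [← hb] at hne hproj
    have hcomm : ∀ y : E k, ‖A (H y) - H (A y)‖ ≤ δ / 2 * ‖y‖ := by
      intro y
      have h1 : A (H y) - H (A y) = (A (H y - y) - (H y - y)) - (H (A y - y) - (A y - y)) := by
        rw [map_sub, map_sub]
        abel
      rw [h1]
      refine (norm_sub_le _ _).trans ?_
      have h2 := hg (H y - y)
      have h3 := hrot (A y - y)
      have h4 := hrot y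
      have h5 := hg y
      calc ‖A (H y - y) - (H y - y)‖ + ‖H (A y - y) - (A y - y)‖
          ≤ 1 / 4 * ‖H y - y‖ + δ * ‖A y - y‖ := add_le_add h2 h3
        _ ≤ 1 / 4 * (δ * ‖y‖) + δ * (1 / 4 * ‖y‖) := by gcongr
        _ = δ / 2 * ‖y‖ := by ring
    obtain ⟨h', hh'⟩ : ∃ h' : Γ, h' = g * h * g⁻¹ * h⁻¹ := ⟨_, rfl⟩
    have hrel : ∀ x, e h' (e h (e g x)) = e g (e h x) := by
      intro x
      have h1 : h' * (h * g) = g * h := by rw [hh']; group
      have h2 := congrArg (fun u : E k ≃ᵃⁱ[ℝ] E k => u x) (congrArg e h1)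
      simp only [map_mul] at h2
      exact h2
    have hlin : ∀ y, L h' (H (A y)) = A (H y) := by
      intro y
      have h1 := hrel y
      have h2 := hrel 0
      rw [haff h' , haff h (e g y), haff g y, haff g (e h y), haff h y] at h1
      rw [haff h' , haff h (e g 0), haff g (e h 0)] at h2
      rw [← hA, ← hH] at h1 h2
      have h3 : L h' (H (A y + e g 0) + e h 0) - L h' (H (e g 0) + e h 0) = L h' (H (A y)) := by
        rw [← map_sub, add_sub_add_right_eq_sub, map_add, add_sub_cancel_right]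
      have h4 : A (H y + e h 0) - A (e h 0) = A (H y) := by
        rw [map_add, add_sub_cancel_right]
      rw [← h3, ← h4]
      have h5 : L h' (H (A y + e g 0) + e h 0) = A (H y + e h 0) + e g 0 - e h' 0 := by
        rw [← h1]; abel
      have h6 : L h' (H (e g 0) + e h 0) = A (e h 0) + e g 0 - e h' 0 := by
        rw [← h2]; abel
      rw [h5, h6]
      abel
    obtain ⟨q, hq⟩ : ∃ q : E k, H (A q + a0) + b = 0 := by
      refine ⟨A.symm (H.symm (-b) - a0), ?_⟩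
      rw [A.apply_symm_apply, sub_add_cancel, H.apply_symm_apply, neg_add_cancel]
    have hb' : e h' 0 = A (H q + b) + a0 := by
      have h1 := hrel q
      rw [haff h (e g q), haff g q, ← hA, ← hH, ← ha0, ← hb, hq, haff g (e h q), haff h q,
        ← hA, ← hH, ← hb, ← ha0] at h1
      exact h1
    have hqn : ‖q‖ ≤ ‖b‖ + ‖a0‖ := by
      have h1 : H (A q + a0) = -b := eq_neg_of_add_eq_zero_left hq
      have h2 : ‖A q + a0‖ = ‖b‖ := by rw [← H.norm_map, h1, norm_neg]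
      calc ‖q‖ = ‖A q‖ := (A.norm_map q).symm
        _ = ‖(A q + a0) - a0‖ := by rw [add_sub_cancel_right]
        _ ≤ ‖A q + a0‖ + ‖a0‖ := norm_sub_le _ _
        _ = _ := by rw [h2]
    obtain ⟨err, herr⟩ : ∃ err : E k, err = e h' 0 - (A b - b) := ⟨_, rfl⟩
    have herr2 : ‖err‖ ≤ c / 8 * ‖b‖ := by
      have h1 : err = (A (H q) - H (A q)) - (H a0 - a0) := by
        have h2 : H (A q) + H a0 + b = 0 := by rw [← map_add]; exact hq
        rw [herr, hb', map_add]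
        have h3 : H (A q) = -b - H a0 := by
          rw [eq_sub_iff_add_eq]
          exact eq_neg_of_add_eq_zero_left h2
        rw [h3]
        abel
      have hbη : η ≤ ‖b‖ := by rw [hb]; exact hη h (by rw [← hb]; exact hne)
      have h4 : ‖a0‖ ≤ ‖a0‖ / η * ‖b‖ := by
        calc ‖a0‖ = ‖a0‖ / η * η := by field_simp
          _ ≤ ‖a0‖ / η * ‖b‖ := mul_le_mul_of_nonneg_left hbη (by positivity)
      calc ‖err‖ ≤ ‖A (H q) - H (A q)‖ + ‖H a0 - a0‖ := by rw [h1]; exact norm_sub_le _ _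
        _ ≤ δ / 2 * ‖q‖ + δ * ‖a0‖ := add_le_add (hcomm q) (hrot a0)
        _ ≤ δ / 2 * (‖b‖ + ‖a0‖) + δ * ‖a0‖ := by gcongr
        _ ≤ δ * (1 / 2 * ‖b‖ + 2 * ‖a0‖) := by
            have : 0 ≤ δ * ‖a0‖ := by positivity
            linarith
        _ ≤ δ * (1 / 2 * ‖b‖ + 2 * (‖a0‖ / η * ‖b‖)) := by gcongr
        _ = δ * (1 / 2 + 2 * ‖a0‖ / η) * ‖b‖ := by ring
        _ ≤ c / 8 * ‖b‖ := mul_le_mul_of_nonneg_right hδ (norm_nonneg _)
    have hbb : e h' 0 = (A b - b) + err := by rw [herr]; abel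
    have hbpos : 0 < ‖b‖ := norm_pos_iff.2 hne
    have hcb : c / 2 * ‖b‖ ≤ ‖A b - b‖ := by
      rw [hP6 b]
      refine le_trans ?_ (hc (P b) (hP1 b))
      have : c * ‖b‖ ≤ c * (2 * ‖P b‖) := mul_le_mul_of_nonneg_left hproj hc0.le
      linarith
    have hup : ‖e h' 0‖ ≤ ‖b‖ / 2 := by
      rw [hbb]
      refine (norm_add_le _ _).trans ?_
      have h1 := hg b
      have h2 : c / 8 * ‖b‖ ≤ 1 / 8 * ‖b‖ := by gcongr
      linarith
    have hlo : 3 * c / 8 * ‖b‖ ≤ ‖e h' 0‖ := by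
      have h1 : ‖A b - b‖ ≤ ‖e h' 0‖ + ‖err‖ := by
        calc ‖A b - b‖ = ‖e h' 0 - err‖ := by rw [hbb, add_sub_cancel_right]
          _ ≤ _ := norm_sub_le _ _
      linarith
    have hpos : 0 < ‖e h' 0‖ := lt_of_lt_of_le (by positivity) hlo
    refine ⟨h', fun z => ?_, norm_pos_iff.1 hpos, ?_, by rw [← hb]; exact hup⟩
    · obtain ⟨y, hy⟩ : ∃ y, z = H (A y) := ⟨A.symm (H.symm z), by simp⟩
      rw [hy, hlin]
      refine (hcomm y).trans ?_
      rw [H.norm_map, A.norm_map]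
      have : 0 ≤ δ * ‖y‖ := by positivity
      linarith
    · have h1 : P (e h' 0) = (A b - b) + P err := by
        rw [hbb, hP3, hP2 _ (hVr b)]
      have h2 : e h' 0 = P (e h' 0) + (err - P err) := by
        rw [h1, hbb]; abel
      have h3 : ‖err - P err‖ ≤ ‖err‖ + ‖err‖ := (norm_sub_le _ _).trans (by linarith [hP4 err])
      have h4 : ‖e h' 0‖ ≤ ‖P (e h' 0)‖ + ‖err - P err‖ := by
        calc ‖e h' 0‖ = ‖P (e h' 0) + (err - P err)‖ := by rw [← h2]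
          _ ≤ _ := norm_add_le _ _
      have h5 : ‖A b - b‖ ≤ ‖P (e h' 0)‖ + ‖P err‖ := by
        calc ‖A b - b‖ = ‖P (e h' 0) - P err‖ := by rw [h1, add_sub_cancel_right]
          _ ≤ _ := norm_sub_le _ _
      have h6 := hP4 err
      have h7 : 3 * c / 8 * ‖b‖ ≤ ‖P (e h' 0)‖ := by linarith
      linarith
  -- the start
  have hv0 : A z0 - z0 ∈ V := hVr z0
  have hv0n : A z0 - z0 ≠ 0 := sub_ne_zero.2 hz0
  obtain ⟨a, haV, ha1⟩ : ∃ a ∈ V, ‖a‖ = 1 := by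
    refine ⟨(‖A z0 - z0‖)⁻¹ • (A z0 - z0), V.smul_mem _ hv0, ?_⟩
    rw [norm_smul, norm_inv, norm_norm, inv_mul_cancel₀ (norm_ne_zero_iff.2 hv0n)]
  obtain ⟨C, hC⟩ := hmini a δ hδ0
  obtain ⟨s, hs, h1, hh1, hrot1⟩ := hC (3 * |C| + 1)
  have hC0 : 0 ≤ |C| := abs_nonneg C
  have hCC : C ≤ |C| := le_abs_self C
  have hs0 : 0 < s := by linarith
  have hsa : ‖s • a‖ = s := by rw [norm_smul, ha1, mul_one, Real.norm_of_nonneg hs0.le]
  have hb1 : ‖e h1 0‖ ≤ s + |C| := by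
    calc ‖e h1 0‖ = ‖(e h1 0 - s • a) + s • a‖ := by rw [sub_add_cancel]
      _ ≤ ‖e h1 0 - s • a‖ + ‖s • a‖ := norm_add_le _ _
      _ ≤ _ := by rw [hsa]; linarith
  have hb2 : s - |C| ≤ ‖e h1 0‖ := by
    have : ‖s • a‖ ≤ ‖e h1 0‖ + ‖e h1 0 - s • a‖ := by
      calc ‖s • a‖ = ‖e h1 0 - (e h1 0 - s • a)‖ := by rw [sub_sub_cancel]
        _ ≤ _ := norm_sub_le _ _
    rw [hsa] at this
    linarith
  have hb3 : s - |C| ≤ ‖P (e h1 0)‖ := by
    have h2 : P (e h1 0) = s • a + P (e h1 0 - s • a) := by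
      conv_lhs => rw [show e h1 0 = s • a + (e h1 0 - s • a) by abel]
      rw [hP3, hP2 _ (V.smul_mem s haV)]
    have h3 : ‖s • a‖ ≤ ‖P (e h1 0)‖ + ‖P (e h1 0 - s • a)‖ := by
      calc ‖s • a‖ = ‖P (e h1 0) - P (e h1 0 - s • a)‖ := by rw [h2, add_sub_cancel_right]
        _ ≤ _ := norm_sub_le _ _
    have h4 := hP4 (e h1 0 - s • a)
    rw [hsa] at h3
    linarith
  have hn1 : e h1 0 ≠ 0 := norm_pos_iff.1 (lt_of_lt_of_le (by linarith) hb2)
  -- the iteration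
  have iter : ∀ n : ℕ, ∃ h : Γ, (∀ z, ‖L h z - z‖ ≤ δ * ‖z‖) ∧ e h 0 ≠ 0 ∧
      ‖e h 0‖ ≤ 2 * ‖P (e h 0)‖ ∧ ‖e h 0‖ ≤ ‖e h1 0‖ * (1 / 2) ^ n := by
    intro n
    induction n with
    | zero => exact ⟨h1, hrot1, hn1, by linarith, by rw [pow_zero, mul_one]⟩
    | succ n ih =>
      obtain ⟨h, i1, i2, i3, i4⟩ := ih
      obtain ⟨h', j1, j2, j3, j4⟩ := step h i1 i2 i3
      refine ⟨h', j1, j2, j3, ?_⟩
      rw [pow_succ]
      linarith
  obtain ⟨n, hn⟩ := exists_pow_lt_of_lt_one (show 0 < η / (‖e h1 0‖ + 1) by positivity)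
    (show (1 / 2 : ℝ) < 1 by norm_num)
  obtain ⟨h, i1, i2, i3, i4⟩ := iter n
  have h2 := hη h i2
  rw [lt_div_iff₀ (by positivity)] at hn
  have h3 : 0 < (1 / 2 : ℝ) ^ n := by positivity
  linarith

end Pool.Agent.Y220.HB
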